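import Pool.Agent.N209.HN.Main

/-!
# Homological and numerical equivalence: reduction to the prime fields, for cycles of each dimension

Let `k₁` be a field, for instance an algebraic closure of `F_p` or of `Q`, with a Weil cohomology
theory, and let `k` be an extension of `k₁` with its theory. We show that homological and numerical
equivalence agree for the cycles of dimension `m` on all varieties over `k` if this is so for the
cycles of dimension `m` on all varieties over `k₁`; more precisely, for the varieties of dimension
at most `n` over `k` the varieties of dimension at most `n + t` over `k₁` suffice, where `t` is the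
transcendence degree. The converse also holds.

Let `z` be a numerically trivial cycle on `Y`. After an alteration, `Y` is the geometric generic
fibre `Z` of a fibration `T` over `k₁`, and `z` extends to a cycle `y` on `T`. A specialisation of
`z` to a closed fibre `F` need not be numerically trivial on `F`, since `F` may have more cycles
than `Z`. But the cycle `F · y`, of the same dimension as `z`, is numerically trivial on `T`: its
intersection number with a cycle `w` on `T` is the intersection number of `z` with the restriction
of `w` to the generic fibre. So `F · y` is homologically trivial on `T`, and this implies that the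
restriction of the class of `y` to the generic fibre is zero: the kernel of the product with the
class of `F` is the kernel of the restriction, by the global invariant cycle theorem and the
semisimplicity of the monodromy (Deligne).
-/

set_option autoImplicit false

open CategoryTheory AlgebraicGeometry

universe u v

namespace Pool.Agent.Results.MP_0c8446_ag.CyclesOfDimension

open Pool.Agent.H914 Pool.Agent.N209.HN VarClass Obj

/-- Let `W₁` be a Weil cohomology theory over the base field `k₁`. (1) Let `F` be an extension of
`k₁` of transcendence degree at most `t`. If homological and numerical equivalence agree for the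
cycles of dimension `m` on the varieties of dimension at most `n + t` over `k₁`, then also for the
cycles of dimension `m` on the varieties of dimension at most `n` over `F`. (2) If they agree for
the cycles of dimension `m` on the varieties of dimension at most `n` over `F`, then also over `k₁`.
(3), (4) Let `𝓔` be a nonempty set of extensions of `k₁`. Homological and numerical equivalence
agree for the cycles of dimension `m`, respectively for all cycles, on all varieties over all the
fields in `𝓔` if and only if this holds over `k₁`. -/
theorem result {k₁ : Type u} [Field k₁] {𝒱₁ : VarClass k₁} {ops₁ : CycleOps 𝒱₁}
    (W₁ : WeilCohomology.{u, v} ops₁) :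
    (∀ (F : Extension W₁) (t : ℕ), F.trdeg ≤ t → ∀ n m,
      HomNumUpTo W₁ (n + t) m → HomNumUpTo F.W n m) ∧
    (∀ (F : Extension W₁) (n m : ℕ), HomNumUpTo F.W n m → HomNumUpTo W₁ n m) ∧
    (∀ 𝓔 : Set (Extension W₁), 𝓔.Nonempty → ∀ m,
      (∀ X, HomNum W₁ X m) ↔ ∀ F ∈ 𝓔, ∀ X, HomNum F.W X m) ∧
    ∀ 𝓔 : Set (Extension W₁), 𝓔.Nonempty →
      ((∀ X, HomEqNum W₁ X) ↔ ∀ F ∈ 𝓔, ∀ X, HomEqNum F.W X) :=
  ⟨fun F _ ht _ _ h => F.up ht h, fun F _ _ h => F.down h, fun _ h m => homNum_iff h m,
    fun _ h => homEqNum_all_iff h⟩

end Pool.Agent.Results.MP_0c8446_ag.CyclesOfDimension
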