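import Pool.Agent.N150.FU.Fin

/-!
# Homological and numerical equivalence on varieties whose divisors satisfy a Fujiki relation

Let `X` be a smooth projective variety of dimension `2 n` over any field, with a polarization `D`, such
that `deg (z ^ (2 n)) = c * q (z) ^ n` for all divisors `z`, where `q` is a rational quadratic form,
`c > 0` and `q (D) > 0` (`IsFujiki`). This relation of Fujiki holds for all surfaces, and for all
irreducible symplectic (hyperkähler) varieties in characteristic zero and their good reductions
in characteristic `p`, for example the varieties of `K3^[n]`-type and the generalised Kummer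
varieties, whatever the rank of the Néron-Severi group is: also if it is greater than in characteristic
zero, and in particular for supersingular varieties, all of whose second cohomology is spanned by
divisors. (The divisors of such varieties cannot be lifted to characteristic zero together.)

1. The standard conjectures of Hodge type and `D` hold for all algebraic cycles on `X` whose class is a
   combination of products of divisor classes. Nothing is assumed on the Frobenius endomorphism.
2. If the cohomology of `X` is generated by the classes of divisors (for example if `X` is a
   supersingular K3 surface or a supersingular variety of `K3^[2]`-type), they hold for all cycles on `X`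
   and on all products `Z` of such varieties, and for every polarized variety `U` each of the two
   conjectures holds for `Z × U` if and only if it holds for `U`.

In characteristic zero the first statement follows from Hodge theory. In characteristic `p` the
positivity is known for divisors (codimension one), which is the hypothesis `index`; the first open case
is the codimension two on varieties of dimension four.

Proof of the first statement (`Pool/Agent/Y103/Fj` of the starting library, not handed in there): the
relation determines the intersection numbers of all products of divisors; one has the same numbers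
for the powers of `q` with a signature `(1, r)`, for which the positivity is proved by averaging over
Gaussian variables (sums of squares). The second statement uses the theorem on products of
`Pool/Agent/TH132/A`: all classes on `Z × U` are sums of products of algebraic classes if all the
cohomology of `Z` is algebraic.
-/

set_option autoImplicit false

open CategoryTheory AlgebraicGeometry

universe u v w

namespace Pool.Agent.Results.MP_0c8446_ag.FujikiDivisorClasses

open Pool.Agent.H914 Pool.Agent.H914.VarClass Pool.Agent.H914.VarClass.Obj
  Pool.Agent.H914.WeilCohomology Pool.Agent.H281R3.HT Pool.Agent.W552 Pool.Agent.Y103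

/-- The polarized variety `P` has even dimension `2 n ≥ 2`, the hard Lefschetz theorem and the Hodge
index theorem for divisors hold, and the divisors satisfy a Fujiki relation
`deg (z ^ (2 n)) = c * q (z) ^ n` with a rational quadratic form `q`, where `c` and `q (D)` are
positive. -/
structure IsFujiki {k : Type u} [Field k] {𝒱 : VarClass k} {ops : CycleOps 𝒱}
    (W : WeilCohomology.{u, v} ops) (P : Polarized 𝒱) : Prop where
  divisor : P.X.IsCyc 1 P.D
  hardLefschetz : HardLefschetz W P.X P.D
  index : ∀ z, P.X.IsCyc 1 z → W.cl P.X (divPow ops P.D (P.X.dim - 1) z) = 0 → W.cl P.X z ≠ 0 →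
    P.X.V.degCycle (ops.mul z (divPow ops P.D (P.X.dim - 2) z)) < 0
  fujiki : ∃ (n : ℕ) (c : ℚ) (q : QuadraticForm ℚ P.X.Cycles), 1 ≤ n ∧ P.X.dim = 2 * n ∧ 0 < c ∧
    0 < q P.D ∧ ∀ z, P.X.IsCyc 1 z →
      P.X.V.degCycle (divPow ops z (2 * n) P.X.V.fundCycle) = c * q z ^ n

/-- The class `x` is a combination, with coefficients in the coefficient field of the cohomology, of
products of `j ≤ b` classes of divisors. -/
def IsDivisorial {k : Type u} [Field k] {𝒱 : VarClass k} {ops : CycleOps 𝒱}
    (W : WeilCohomology.{u, v} ops) (X : 𝒱.Obj) (b : ℕ) (x : W.H X) : Prop :=
  InRing W.K (algClasses W X) 1 b x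

/-- The cohomology algebra is generated by the classes of divisors. -/
def GeneratedByDivisors {k : Type u} [Field k] {𝒱 : VarClass k} {ops : CycleOps 𝒱}
    (W : WeilCohomology.{u, v} ops) (X : 𝒱.Obj) : Prop :=
  Algebra.adjoin W.K (algClasses W X 1) = ⊤

/-- **The standard conjectures of Hodge type and `D` for the divisorial classes on varieties with a
Fujiki relation, and for the products of such varieties with cohomology generated by divisors.** -/
theorem result {k : Type u} [Field k] {𝒱 : VarClass k} {ops : CycleOps 𝒱}
    (W : WeilCohomology.{u, v} ops) :
    (∀ P : Polarized 𝒱, IsFujiki W P →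
      HodgeTypeFor W P.X P.D (IsDivisorial W P.X (P.X.dim / 2)) ∧
        HomEqNumFor W P.X (IsDivisorial W P.X (P.X.dim / 2))) ∧
    ∀ {J : Type w} (P : J → Polarized 𝒱), (∀ j, IsFujiki W (P j)) →
      (∀ j, GeneratedByDivisors W (P j).X) → ∀ Z : Polarized 𝒱, IsProduct ops P Z →
        HodgeType W Z.X Z.D ∧ HomEqNum W Z.X ∧
        ∀ U : Polarized 𝒱, U.X.IsCyc 1 U.D → HardLefschetz W U.X U.D →
          (HodgeType W (Z.prod ops U).X (Z.prod ops U).D ↔ HodgeType W U.X U.D) ∧
            (HomEqNum W (Z.prod ops U).X ↔ HomEqNum W U.X) := by
  refine ⟨?_, ?_⟩
  · rintro P ⟨hD, hl, hI, n, c, q, hn1, hn, hc, hq, hF⟩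
    have h := Pool.Agent.N150.FU.std_ring hn hn1 hD hc hq hF hI
    rw [show P.X.dim / 2 = n by omega]
    exact h
  · intro J P hP hG Z hZ
    have hgood : ∀ j, Pool.Agent.N150.FU.Good W (P j) := by
      intro j
      obtain ⟨hD, hl, hI, n, c, q, hn1, hn, hc, hq, hF⟩ := hP j
      exact Pool.Agent.N150.FU.good_of hn hn1 hD hl hc hq hF hI (hG j)
    have h := Pool.Agent.N150.FU.good_product hgood hZ
    exact ⟨h.hodge, Pool.Agent.N150.FU.num_of_top h.top, fun U hU hUL =>
      ⟨h.times_iff hU hUL, h.num_iff U.X⟩⟩

end Pool.Agent.Results.MP_0c8446_ag.FujikiDivisorClasses
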