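import Pool.Agent.N179.AE.Fin

/-!
# Homological and numerical equivalence in characteristic zero, independent families, and an arbitrary
variety

Let `W` be the singular cohomology of smooth projective complex varieties with coefficients in `K = ℂ`.
The theorem is proved for an abstract Weil cohomology theory over a field `K` isomorphic to `ℂ` with
Hodge classes and a Mumford–Tate group. Let `Γ` be the Mumford–Tate group: the group of the `K`-valued
points of the fundamental group of the category of the polarisable rational Hodge structures, and `χ`
its action on the Tate twist `H^2(ℙ^1)`. The Hodge classes in `H^(2 j)(X)` are rational, they are
multiplied by `χ(g)^j`, and all classes of degree `2 j` with this property are `K`-combinations of Hodge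
classes; as `Γ` is connected, the same is true for subgroups of finite index (`IsHodgeTheory`).

A class (or a vector of a representation) is *semi-invariant* if `Γ` multiplies it by a character. Let
`V_i`, `i ∈ ι`, be any family of Hodge structures such that the representations `End V_i` are
semisimple (always true for polarisable `V_i`), and which are pairwise independent: for `i ≠ j` every
equivariant linear map `End V_i → End V_j` has its values in the span of the semi-invariant
vectors. For instance `V_i = H^1(A_i)` for pairwise not isogenous elliptic curves without complex
multiplication, or for pairwise not isogenous abelian varieties `A_i` with `End A_i = ℤ` and of odd
dimension.

Let `P_a` be varieties with cohomology generated by `V_(i_a)`, for instance **arbitrary powers** of `A_i`,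
for which the Hodge conjecture is true, homological and numerical equivalence coincide, and the
semi-invariant classes are combinations of Hodge classes (`AlgFactor`); for the powers of these `A_i`
all this is known.

**Theorem.** Let `Z` be an **arbitrary** smooth projective complex variety. There is a finite set
`E = E(Z)` of indices, with at most `(b - b') / 2` elements, where `b` is the sum of the Betti numbers of
`Z` and `b' ≥ 1` is the dimension of the span of the semi-invariant classes (among them the Hodge
classes), such that for all products `Y = P_1 × ... × P_n × Z'` with pairwise different indices
`i_a ∉ E`, and all varieties `Z'` generated by the cohomology of `Z` (for instance `Z' = Z`, the powers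
of `Z`):

1. **homological and numerical equivalence coincide on `Y` if and only if they coincide on `Z'`;**

2. **for every adequate equivalence relation `R` on cycles (stable under pull-backs, products with
   arbitrary cycles, push-forwards): `R` is finer than homological equivalence on `Y` if and only if it
   is finer than homological equivalence on `Z'`.**

The set `E` is the same for 1 and 2. Besides numerical equivalence, the question is of interest in 2 for the
homological equivalence of any other Weil cohomology theory `W'`, without any comparison theorem and
without group action (`isAdequate_ker`). The exceptional members may be moved to the base, as
`E(V_j) ⊆ {j}`: in every product of `Z` with powers of members of the family all members but at most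
`(b - b') / 2` can be split off.

For example, homological and numerical equivalence coincide on `A_1^(n_1) × ... × A_m^(n_m) × Z` for every
variety `Z` of dimension at most four or every other variety `Z` for which they coincide, with all
`n_a` and at most `(b - b') / 2` exceptional `A_i` in the family (none for varieties with cohomology of
Hodge–Tate type). It is not known in general that `D` for `Z` implies `D` for `Z × A`: the known way is by
the standard conjecture of Lefschetz type for `Z`, which is equivalent to `D` for `Z × Z` and is not known to be a
consequence of `D` for `Z`.

The proof: by the Künneth formula for semi-invariant classes of
`MP_021685_ag.IndependenceFromSquares`, applied to the Mumford–Tate group, the classes of the cycles on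
`P × Z'`, which are Hodge classes, have slices on `P` which are combinations of Hodge classes, so of
classes of cycles. As homological and numerical equivalence coincide on `P` the class of a cycle `z` is
the sum of the `a_i × p_*(z · b_i)` for two dual families `a_i`, `b_i` of cycles on `P`. If `z` is
equivalent to zero with respect to `R`, so are the cycles `p_*(z · b_i)` on `Z'`; they are homologically
trivial by hypothesis, and so is `z`. The converse is pull-back. (The case 1 in the `ℓ`-adic setting, for
representations of Galois groups of finitely generated fields, is
`MP_5f0950_ag.IndependentFactors`.)
-/

set_option autoImplicit false

universe u

namespace Pool.Agent.Results.MP_0c8446_ag.IndependentFamilies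

open Pool.Agent.H914 Pool.Agent.N179.GR.S Pool.Agent.N179.PC Pool.Agent.N179.AE

/-- **Adequate equivalence relations and homological equivalence, independent families, and an
arbitrary variety.** -/
theorem result {k : Type u} [Field k] {𝒱 : VarClass k} {ops : CycleOps 𝒱}
    {W : WeilCohomology.{u, 0} ops} (hK : Nonempty (W.K ≃+* ℂ)) {Γ : Type} [Group Γ]
    {T : HodgeData W Γ} (hT : IsHodgeTheory T) {ι : Type} {V : ι → GRep W.K Γ} (hV : Family V) :
    ∃ E : GRep W.K Γ → Set ι, EquivSets T V E :=
  final hK hT hV

end Pool.Agent.Results.MP_0c8446_ag.IndependentFamilies
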