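import Pool.Agent.V11219.BsyMain

/-!
# Homological and numerical equivalence for varieties dominated by products of varieties which
# degenerate simultaneously

Let `W` be a Weil cohomology theory with algebraically closed coefficients (for example étale
cohomology with coefficients in the closure of `ℚ_ℓ`) on a class of smooth proper varieties over a
field `k` of any characteristic, and `G` a class of varieties, closed under products, with an action
of a group `Γ` with the formal properties of a Galois action (the example: varieties over a subfield
`F` of the algebraically closed field `k`, and the Galois group of `F`; `χ` is the action on the Tate
twists).

Let `X_i` be finitely many varieties of odd dimension in `G`, with divisors `D_i` which satisfy the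
hard Lefschetz theorem and the standard conjectures of Lefschetz and of Hodge type (for example
curves), and whose transcendental cohomology `T_i` (the orthogonal complement of all algebraic
classes; for curves `T_i = H^1(X_i)`) is concentrated in the middle degree and irreducible under all
subgroups of finite index of `Γ`. Assume:

* **(distinct)** for `i ≠ j` the representations `T_i` and `T_j` of `Γ` are not isomorphic up to scalars;
* **(small defects)** let `N` be the set of the `g ∈ Γ` with `χ(g) = 1` which act trivially on the
  cohomology of `Z` and with `(g - 1) ^ 2 = 0` on **all** `T_j`. For every `i` some `g ∈ N` has defects
  on `T_i` without a common prime factor, or the defect two; here the defects of `g` are the rank of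
  `g - 1` on `T_i` and the multiplicities of the nonzero eigenvalues of `(g - 1) (g' - 1)` on `T_i`, for
  `g' ∈ N`. (Or: the conjugates of some `g ∈ N` act irreducibly on `T_i` and the defects of all
  elements of `N` have no common prime factor.)

The elements of `N` are, for instance, the elements of the inertia groups at the places `v` of `F` at
which `Z` has good reduction and the curves `X_j` have stable reduction; **all `X_j` may have bad
reduction at the same places** (for instance at one single place), and the rank of the local monodromy
(the toric rank) may be large.

Let `T` be the product of `Z` with arbitrary powers of the `X_i`. Then

1. homological and numerical equivalence coincide for `T` **if and only if** they coincide for `Z`; no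
   standard conjecture is assumed for `Z`;
2. if they coincide for `Z` (for instance if `Z` is a point, a curve or a surface), then they coincide
   for every variety `V` which is dominated by `T`, more precisely for which there is a morphism
   `g : T → V` such that `1` is the direct image under `g` of the class of a cycle;
3. if `Z`, with the divisor `E`, satisfies the hard Lefschetz theorem and the standard conjectures of
   Lefschetz and of Hodge type (for instance if `Z` is a point, a curve or a surface), then the standard
   conjecture of Hodge type holds for `T`, with the sum of the pull-backs of the divisors.

The kept result `MP_f569db_ag.NodalProducts` needs for every `i` an element of `Γ` which acts on `T_i`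
by a Picard-Lefschetz formula (rank one) and trivially on all the other `T_j`: so for every factor there
must be a place where it acquires one node, and where **all the other factors have good reduction**. Here
there is no such separation: the same elements may act nontrivially on all factors, and the rank may be
arbitrary. (Even-dimensional factors are not treated here; they are in `NodalProducts`.)

Proof. Let `L` be the Lie algebra of the operators on the sum of the `T_i` which kill all multilinear
maps from the `T_i` to the cohomology of `Z` which are equivariant under a subgroup of finite
index. It contains the logarithms of the elements of `N`, which are sums of elements of square zero of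
the symplectic Lie algebras. By Goursat's lemma and an argument with extremal elements (the rank
of the elements in the projection to one factor is a multiple of the rank in the natural module of a
simple Lie algebra generated by elements of square zero) it contains the symplectic Lie algebra of
every `T_i`. By the first fundamental theorem the algebraic classes on the tower are
combinations of products of algebraic classes on the powers of the `X_i` and classes on `Z`. By a
theorem on the positivity of the form on classes generated by pairs of factors the algebraic classes of
the powers have an orthogonal rational basis; the components of an algebraic class in this basis are
algebraic classes on the other factor. For the second statement: if a combination `c` of algebraic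
classes on `V` is orthogonal to all algebraic classes, then so is `g^* c`, as `tr(b g^* c) = tr(g_* b c)`;
so `g^* c = 0`, and `c = g_*(w g^* c) = 0`, if `g_* w = 1`.
-/

universe u

namespace Pool.Agent.Results.MP_0c8446_ag.SimultaneousDegenerations

open Pool.Agent.H914 Pool.Agent.H281R3.HT Pool.Agent.TH125.Gal Pool.Agent.V11219.Min
  Pool.Agent.V11219.Bst

/-- **Homological and numerical equivalence for varieties dominated by products of varieties with
simultaneous semistable degenerations.** For a system as above let `T` be the product of `Z` with
powers of different `X i`. Then homological and numerical equivalence coincide for `T` if and only if
they coincide for `Z`; if so, then also for every variety `V` with a morphism `T → V` such that `1` is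
the direct image of a cycle class; and if `Z` with the divisor `E` satisfies the hard Lefschetz theorem
and the standard conjectures of Lefschetz and of Hodge type, then the standard conjecture of Hodge
type holds for `T`. -/
theorem result {k : Type u} [Field k] {𝒱 : VarClass k} {ops : CycleOps 𝒱}
    (W : WeilCohomology.{u, 0} ops) [IsAlgClosed W.K] {Γ : Type} [Group Γ] (χ : CharOf W Γ)
    (G : Set (GVar W Γ)) {ι : Type} [Finite ι] (X : ι → GVar W Γ) (D : ∀ i, (X i).X.Cycles)
    (Z : GVar W Γ) (h : System χ G X D Z) (E : Z.X.Cycles)
    (L : List (ι × ℕ)) (hL : (L.map Prod.fst).Nodup) :
    (HomEqNum W (nodalTower X D Z E L).X ↔ HomEqNum W Z.X) ∧
      (HomEqNum W Z.X → ∀ (V : 𝒱.Obj) (g : (nodalTower X D Z E L).X ⟶ V), Dominant W g →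
        HomEqNum W V) ∧
      (IsPolarization W Z.X E →
        HodgeType W (nodalTower X D Z E L).X (nodalTower X D Z E L).D) := by
  classical
  have := Fintype.ofFinite ι
  have h1 := Pool.Agent.V11219.Sst.homEqNum_sst h.sys E L hL
  exact ⟨h1, fun hZ V g hg => homEqNum_of_dominant hg (h1.2 hZ),
    fun hE => (Pool.Agent.V11219.Sst.hodge_sst h.sys hE L hL).1⟩

end Pool.Agent.Results.MP_0c8446_ag.SimultaneousDegenerations
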